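import Pool.Agent.D0H55.EXO.C4
import Pool.Agent.D0H55.EXO.C5

/-!
# Classification of the exotic embeddings of roots of unity, `c ≥ 4`
-/

set_option autoImplicit false

namespace Pool.Agent.Results.MP_eba27c_nt.Classification

open Pool.Agent.D0H55.EXO

/-- `Mu n` is the group of complex `n`-th roots of unity. -/
abbrev Mu (n : ℕ) : Type := rootsOfUnity n ℂ

/-- The complex number underlying a root of unity. -/
def toC {n : ℕ} (z : Mu n) : ℂ := ((z : ℂˣ) : ℂ)

/-- `ℓ` is exotic: it is injective and is the restriction of a Moebius transformation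
`T z = (α z + β) / (γ z + δ)` with `T 0` neither `0` nor `∞`. -/
def IsExotic {c d : ℕ} (ℓ : Mu c → Mu (c * d)) : Prop :=
  Function.Injective ℓ ∧ ∃ α β γ δ : ℂ, α * δ - β * γ ≠ 0 ∧
    (∀ z : Mu c, γ * toC z + δ ≠ 0 ∧ toC (ℓ z) = (α * toC z + β) / (γ * toC z + δ)) ∧
    β ≠ 0 ∧ δ ≠ 0

/-- The three basic operations on embeddings. -/
inductive Step {c d : ℕ} : (Mu c → Mu (c * d)) → (Mu c → Mu (c * d)) → Prop
  | scale (ℓ : Mu c → Mu (c * d)) (η : Mu (c * d)) : Step ℓ (fun z => η * ℓ z)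
  | rotate (ℓ : Mu c → Mu (c * d)) (ω : Mu c) : Step ℓ (fun z => ℓ (ω * z))
  | invert (ℓ : Mu c → Mu (c * d)) : Step ℓ (fun z => (ℓ z)⁻¹)

/-- Equivalence: `ℓ'` arises from `ℓ` by a composition of the basic operations. -/
def Equivalent {c d : ℕ} (ℓ ℓ' : Mu c → Mu (c * d)) : Prop :=
  Relation.ReflTransGen Step ℓ ℓ'

/-- The root of unity `e a n = exp (2 π i a / n)`. -/
noncomputable def e (a n : ℕ) : ℂ := Complex.exp (2 * Real.pi * Complex.I * (a / n))

/-- `ℓ` has the values `v 0, …, v (c - 1)` at `1, e 1 c, …, e (c - 1) c`. -/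
def Values {c d : ℕ} (ℓ : Mu c → Mu (c * d)) (v : Fin c → ℂ) : Prop :=
  ∀ (k : Fin c) (z : Mu c), toC z = e k c → toC (ℓ z) = v k

/-- Exponents of the five classes for `c = 5`. -/
def expo : Fin 5 → Fin 5 → ℕ :=
  ![![0, 3, 6, 12, 24], ![0, 1, 2, 5, 27], ![0, 2, 4, 9, 25], ![0, 2, 5, 16, 27],
    ![0, 4, 9, 17, 25]]

/-- The values of the `j`-th class for `c = 5`: `e k 5 ↦ e (expo j k) 30`. -/
noncomputable def penta (j : Fin 5) : Fin 5 → ℂ := fun k => e (expo j k) 30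

/-- The kites: `1, i, -1, -i ↦ 1, ξ, ξ², -ξ`. -/
def kite (ξ : ℂ) : Fin 4 → ℂ := ![1, ξ, ξ ^ 2, -ξ]

/-- The sporadic embedding for `c = 4`: exponents `0, 1, 3, 10` over `12`. -/
noncomputable def sporadic : Fin 4 → ℂ := fun k => e (![0, 1, 3, 10] k) 12

/-! ## Preliminaries -/

theorem toC_pow {n : ℕ} (z : Mu n) : toC z ^ n = 1 := by
  have h := z.2
  rw [mem_rootsOfUnity] at h
  have := congrArg (fun u : ℂˣ => (u : ℂ)) h
  simpa [toC] using this

theorem toC_inj {n : ℕ} {z z' : Mu n} (h : toC z = toC z') : z = z' := by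
  apply Subtype.ext
  apply Units.ext
  exact h

@[simp] theorem toC_one {n : ℕ} : toC (1 : Mu n) = 1 := rfl

@[simp] theorem toC_mul {n : ℕ} (z z' : Mu n) : toC (z * z') = toC z * toC z' := rfl

@[simp] theorem toC_inv {n : ℕ} (z : Mu n) : toC z⁻¹ = (toC z)⁻¹ := by
  simp [toC]

theorem toC_ne {n : ℕ} (z : Mu n) : toC z ≠ 0 := (z : ℂˣ).ne_zero

theorem exists_toC {n : ℕ} (hn : 0 < n) {z : ℂ} (h : z ^ n = 1) : ∃ u : Mu n, toC u = z := by
  have : NeZero n := ⟨hn.ne'⟩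
  exact ⟨rootsOfUnity.mkOfPowEq z h, rootsOfUnity.coe_mkOfPowEq h⟩

theorem e_prim {n : ℕ} (hn : 0 < n) : IsPrimitiveRoot (e 1 n) n := by
  have e1 : e 1 n = Complex.exp (2 * Real.pi * Complex.I / n) := by
    unfold e
    congr 1
    push_cast
    ring
  rw [e1]
  exact Complex.isPrimitiveRoot_exp n hn.ne'

theorem e_pow (a n : ℕ) : e a n = e 1 n ^ a := by
  unfold e
  rw [← Complex.exp_nat_mul]
  congr 1
  push_cast
  ring

theorem e_pow' (a b n : ℕ) (hb : 0 < b) (hn : 0 < n) : e a n = e 1 (b * n) ^ (b * a) := by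
  unfold e
  rw [← Complex.exp_nat_mul]
  congr 1
  have h1 : (b : ℂ) ≠ 0 := Nat.cast_ne_zero.2 hb.ne'
  have h2 : (n : ℂ) ≠ 0 := Nat.cast_ne_zero.2 hn.ne'
  push_cast
  field_simp

theorem exists_fin {c : ℕ} (hc : 0 < c) (z : Mu c) : ∃ k : Fin c, toC z = e k c := by
  have : NeZero c := ⟨hc.ne'⟩
  obtain ⟨k, hk, hk'⟩ := (e_prim hc).eq_pow_of_pow_eq_one (toC_pow z)
  exact ⟨⟨k, hk⟩, by rw [e_pow, hk']⟩

theorem e_inj {c : ℕ} (hc : 0 < c) {k k' : Fin c} (h : e k c = e k' c) : k = k' := by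
  rw [e_pow, e_pow (k' : ℕ)] at h
  exact Fin.ext ((e_prim hc).pow_inj k.2 k'.2 h)

theorem exists_mu {c : ℕ} (hc : 0 < c) (k : ℕ) : ∃ z : Mu c, toC z = e k c := by
  apply exists_toC hc
  rw [e_pow, ← pow_mul, mul_comm, pow_mul, (e_prim hc).pow_eq_one, one_pow]

/-- existence of a map with given values -/
theorem exists_values {c d : ℕ} (hc : 0 < c) (hd : 0 < d) (v : Fin c → ℂ)
    (hv : ∀ k, v k ^ (c * d) = 1) : ∃ ℓ : Mu c → Mu (c * d), Values ℓ v := by
  choose κ hκ using exists_fin (c := c) hc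
  choose V hV using fun k => exists_toC (Nat.mul_pos hc hd) (hv k)
  refine ⟨fun z => V (κ z), ?_⟩
  intro k z hz
  have : κ z = k := e_inj hc (by rw [← hκ, hz])
  show toC (V (κ z)) = v k
  rw [this, hV]

/-! ## Equivalence -/

theorem Step.symm {c d : ℕ} {ℓ ℓ' : Mu c → Mu (c * d)} (h : Step ℓ ℓ') : Step ℓ' ℓ := by
  cases h with
  | scale η =>
    have := Step.scale (fun z => η * ℓ z) η⁻¹
    simpa using this
  | rotate ω =>
    have := Step.rotate (fun z => ℓ (ω * z)) ω⁻¹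
    simpa using this
  | invert =>
    have := Step.invert (fun z => (ℓ z)⁻¹)
    simpa using this

theorem Equivalent.symm {c d : ℕ} {ℓ ℓ' : Mu c → Mu (c * d)} (h : Equivalent ℓ ℓ') :
    Equivalent ℓ' ℓ := by
  unfold Equivalent at *
  induction h with
  | refl => exact Relation.ReflTransGen.refl
  | tail _ h ih => exact Relation.ReflTransGen.head h.symm ih

/-- explicit form of the equivalence -/
theorem Equivalent.explicit {c d : ℕ} {ℓ ℓ' : Mu c → Mu (c * d)} (h : Equivalent ℓ ℓ') :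
    ∃ (η : Mu (c * d)) (ω : Mu c), (∀ z, ℓ' z = η * ℓ (ω * z)) ∨ (∀ z, ℓ' z = η * (ℓ (ω * z))⁻¹) := by
  unfold Equivalent at h
  induction h with
  | refl => exact ⟨1, 1, Or.inl (fun z => by simp)⟩
  | tail _ h ih =>
    obtain ⟨η, ω, hη⟩ := ih
    cases h with
    | scale η' =>
      refine ⟨η' * η, ω, ?_⟩
      rcases hη with hη | hη
      · exact Or.inl (fun z => by simp only [hη, mul_assoc])
      · exact Or.inr (fun z => by simp only [hη, mul_assoc])
    | rotate ω' =>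
      refine ⟨η, ω * ω', ?_⟩
      rcases hη with hη | hη
      · exact Or.inl (fun z => by simp only [hη, mul_assoc])
      · exact Or.inr (fun z => by simp only [hη, mul_assoc])
    | invert =>
      refine ⟨η⁻¹, ω, ?_⟩
      rcases hη with hη | hη
      · exact Or.inr (fun z => by simp only [hη, mul_inv])
      · exact Or.inl (fun z => by simp only [hη, mul_inv, inv_inv])

theorem equivalent_of {c d : ℕ} (ℓ : Mu c → Mu (c * d)) (η : Mu (c * d)) (ω : Mu c) :
    Equivalent ℓ (fun z => η * ℓ (ω * z)) := by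
  refine Relation.ReflTransGen.head (Step.rotate ℓ ω) ?_
  exact Relation.ReflTransGen.single (Step.scale (fun z => ℓ (ω * z)) η)

theorem equivalent_of_inv {c d : ℕ} (ℓ : Mu c → Mu (c * d)) (η : Mu (c * d)) (ω : Mu c) :
    Equivalent ℓ (fun z => η * (ℓ (ω * z))⁻¹) := by
  refine Relation.ReflTransGen.head (Step.rotate ℓ ω) ?_
  refine Relation.ReflTransGen.head (Step.invert _) ?_
  exact Relation.ReflTransGen.single (Step.scale (fun z => (ℓ (ω * z))⁻¹) η)

theorem Step.exotic {c d : ℕ} {ℓ ℓ' : Mu c → Mu (c * d)} (h : Step ℓ ℓ') (he : IsExotic ℓ) :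
    IsExotic ℓ' := by
  obtain ⟨hi, α, β, γ, δ, hd, hT, hβ, hδ⟩ := he
  cases h with
  | scale η =>
    refine ⟨fun z z' h => hi (mul_left_cancel h), toC η * α, toC η * β, γ, δ, ?_, ?_, ?_, hδ⟩
    · have e : toC η * α * δ - toC η * β * γ = toC η * (α * δ - β * γ) := by ring
      rw [e]
      exact mul_ne_zero (toC_ne η) hd
    · intro z
      refine ⟨(hT z).1, ?_⟩
      rw [toC_mul, (hT z).2, ← mul_div_assoc]
      congr 1
      ring
    · exact mul_ne_zero (toC_ne η) hβ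
  | rotate ω =>
    refine ⟨fun z z' h => mul_left_cancel (hi h), α * toC ω, β, γ * toC ω, δ, ?_, ?_, hβ, hδ⟩
    · have e : α * toC ω * δ - β * (γ * toC ω) = toC ω * (α * δ - β * γ) := by ring
      rw [e]
      exact mul_ne_zero (toC_ne ω) hd
    · intro z
      have := hT (ω * z)
      rw [toC_mul] at this
      rw [mul_assoc, mul_assoc]
      exact this
  | invert =>
    refine ⟨fun z z' h => hi (inv_injective h), γ, δ, α, β, ?_, ?_, hδ, hβ⟩
    · intro h0
      exact hd (by linear_combination -h0)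
    · intro z
      have h1 := hT z
      refine ⟨?_, ?_⟩
      · intro h0
        have h2 := h1.2
        rw [h0, zero_div] at h2
        exact toC_ne _ h2
      · rw [toC_inv, h1.2, inv_div]

theorem Equivalent.exotic {c d : ℕ} {ℓ ℓ' : Mu c → Mu (c * d)} (h : Equivalent ℓ ℓ')
    (he : IsExotic ℓ) : IsExotic ℓ' := by
  unfold Equivalent at h
  induction h with
  | refl => exact he
  | tail _ h ih => exact h.exotic ih

/-! ## From embeddings to functions on the complex numbers -/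

theorem exo_data {c d : ℕ} (hc : 3 ≤ c) (hd : 0 < d) {ℓ : Mu c → Mu (c * d)} (h : IsExotic ℓ) :
    ∃ (w : ℂ → ℂ) (α β γ δ : ℂ), (∀ z : Mu c, toC (ℓ z) = toC (ℓ 1) * w (toC z)) ∧ w 1 = 1 ∧
      NonRot c w ∧ α * δ - β * γ ≠ 0 ∧ (∀ z, z ^ c = 1 → Rl α β γ δ z (w z)) ∧
      (∀ z, z ^ c = 1 → w z ^ (c * d) = 1) := by
  obtain ⟨hi, α, β, γ, δ, hdet, hT, hβ, hδ⟩ := h
  have hL := toC_ne (ℓ 1)
  choose u hu using fun (z : {z : ℂ // z ^ c = 1}) => exists_toC (show 0 < c by omega) z.2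
  set w : ℂ → ℂ := fun z => (toC (ℓ 1))⁻¹ * ((α * z + β) / (γ * z + δ)) with hw
  have hwz : ∀ z : Mu c, toC (ℓ z) = toC (ℓ 1) * w (toC z) := by
    intro z
    rw [hw]
    simp only
    rw [mul_inv_cancel_left₀ hL, (hT z).2]
  have hw1 : w 1 = 1 := by
    have := hwz 1
    rw [toC_one] at this
    exact (mul_left_cancel₀ hL (by rw [mul_one]; exact this)).symm
  have hrel : ∀ z, z ^ c = 1 → Rl ((toC (ℓ 1))⁻¹ * α) ((toC (ℓ 1))⁻¹ * β) γ δ z (w z) := by
    intro z hz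
    obtain ⟨y, rfl⟩ := exists_toC (show 0 < c by omega) hz
    have h1 := (hT y).1
    unfold Rl
    rw [hw]
    simp only
    rw [mul_assoc, div_mul_cancel₀ _ h1]
    ring
  have hNR : NonRot c w := by
    obtain ⟨z2, z3, hz2, hz3, n12, n13, n23⟩ := three_points hc
    have hLi : (toC (ℓ 1))⁻¹ ≠ 0 := inv_ne_zero hL
    constructor
    · intro hrot
      have k1 := hrel 1 (one_pow c)
      have k2 := hrel z2 hz2
      have k3 := hrel z3 hz3
      rw [hrot 1 (one_pow c)] at k1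
      rw [hrot z2 hz2] at k2
      rw [hrot z3 hz3] at k3
      unfold Rl at k1 k2 k3
      rw [hw1] at k1 k2 k3
      set A := (toC (ℓ 1))⁻¹ * α
      set B := (toC (ℓ 1))⁻¹ * β with hB
      have e12 : γ * (1 + z2) + (δ - A) = 0 := by
        apply mul_left_cancel₀ (sub_ne_zero.2 n12)
        linear_combination k1 - k2
      have e13 : γ * (1 + z3) + (δ - A) = 0 := by
        apply mul_left_cancel₀ (sub_ne_zero.2 n13)
        linear_combination k1 - k3
      have e23 : γ = 0 := by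
        have : γ * (z2 - z3) = 0 := by linear_combination e12 - e13
        exact (mul_eq_zero.1 this).resolve_right (sub_ne_zero.2 n23)
      have hB0 : B = 0 := by
        rw [e23] at e12 k1
        linear_combination e12 - k1
      exact mul_ne_zero hLi hβ hB0
    · intro hrot
      have k1 := hrel 1 (one_pow c)
      have k2 := hrel z2 hz2
      have k3 := hrel z3 hz3
      have r1 := hrot 1 (one_pow c)
      have r2 := hrot z2 hz2
      have r3 := hrot z3 hz3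
      unfold Rl at k1 k2 k3
      rw [hw1] at k1 r1 r2 r3
      set A := (toC (ℓ 1))⁻¹ * α
      set B := (toC (ℓ 1))⁻¹ * β with hB
      have k2' : γ * z2 + δ = A * z2 ^ 2 + B * z2 := by
        linear_combination z2 * k2 - (γ * z2 + δ) * r2
      have k3' : γ * z3 + δ = A * z3 ^ 2 + B * z3 := by
        linear_combination z3 * k3 - (γ * z3 + δ) * r3
      have e12 : A * (1 + z2) + (B - γ) = 0 := by
        apply mul_left_cancel₀ (sub_ne_zero.2 n12)
        linear_combination k2' - k1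
      have e13 : A * (1 + z3) + (B - γ) = 0 := by
        apply mul_left_cancel₀ (sub_ne_zero.2 n13)
        linear_combination k3' - k1
      have e23 : A = 0 := by
        have : A * (z2 - z3) = 0 := by linear_combination e12 - e13
        exact (mul_eq_zero.1 this).resolve_right (sub_ne_zero.2 n23)
      apply hδ
      rw [e23] at e12 k1
      linear_combination k1 + e12
  refine ⟨w, _, _, γ, δ, hwz, hw1, hNR, ?_, hrel, ?_⟩
  · have e : (toC (ℓ 1))⁻¹ * α * δ - (toC (ℓ 1))⁻¹ * β * γ = (toC (ℓ 1))⁻¹ * (α * δ - β * γ) := by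
      ring
    rw [e]
    exact mul_ne_zero (inv_ne_zero hL) hdet
  · intro z hz
    obtain ⟨y, rfl⟩ := exists_toC (show 0 < c by omega) hz
    have h1 := congrArg (fun x => x ^ (c * d)) (hwz y)
    simp only [mul_pow, toC_pow, one_mul] at h1
    exact h1.symm

theorem exotic_of {c d : ℕ} (hc : 3 ≤ c) (hd : 0 < d) {ℓ : Mu c → Mu (c * d)} {w : ℂ → ℂ}
    (hw : ∀ z : Mu c, w (toC z) = toC (ℓ z)) (hr : NonRot c w) {α β γ δ : ℂ}
    (hdet : α * δ - β * γ ≠ 0) (h : ∀ z : Mu c, Rl α β γ δ (toC z) (toC (ℓ z))) :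
    IsExotic ℓ := by
  have hcd : 0 < c * d := Nat.mul_pos (by omega) hd
  have h' : ∀ z, z ^ c = 1 → Rl α β γ δ z (w z) := by
    intro z hz
    obtain ⟨y, rfl⟩ := exists_toC (show 0 < c by omega) hz
    rw [hw]
    exact h y
  have hw' : ∀ z, z ^ c = 1 → w z ^ (c * d) = 1 := by
    intro z hz
    obtain ⟨y, rfl⟩ := exists_toC (show 0 < c by omega) hz
    rw [hw, toC_pow]
  obtain ⟨-, hβ, -, hδ⟩ := coefs_ne (s := 1) (N := c * d) hc hcd (Dvd.intro _ rfl) (by simp) w hw' hr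
    hdet (by simpa using h')
  refine ⟨?_, α, β, γ, δ, hdet, ?_, hβ, hδ⟩
  · intro z z' hz
    apply toC_inj
    have h1 := h z
    rw [hz] at h1
    exact h1.inj hdet (h z')
  · intro z
    have h1 := (h z).den hdet
    refine ⟨h1, ?_⟩
    rw [eq_div_iff h1]
    exact h z

/-! ## No exotic embeddings for `c ≥ 6` -/

theorem none_six {c d : ℕ} (hc : 6 ≤ c) (hd : 0 < d) (ℓ : Mu c → Mu (c * d)) : ¬ IsExotic ℓ := by
  intro h
  obtain ⟨w, α, β, γ, δ, -, hw1, hr, hdet, hrel, hpow⟩ := exo_data (by omega) hd h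
  exact no_exotic hc hw1 hr hdet hrel d hd hpow

/-! ## Values -/

theorem values_unique {c d : ℕ} (hc : 0 < c) {ℓ ℓ' : Mu c → Mu (c * d)} {v : Fin c → ℂ}
    (h : Values ℓ v) (h' : Values ℓ' v) : ℓ = ℓ' := by
  funext z
  obtain ⟨k, hk⟩ := exists_fin hc z
  apply toC_inj
  rw [h k z hk, h' k z hk]

theorem e_add {c : ℕ} (hc : 0 < c) [NeZero c] (a k : Fin c) :
    e ((a + k : Fin c) : ℕ) c = e a c * e k c := by
  rw [e_pow, e_pow (a : ℕ), e_pow (k : ℕ), ← pow_add]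
  conv_rhs => rw [← Nat.div_add_mod ((a : ℕ) + k) c, pow_add, pow_mul, (e_prim hc).pow_eq_one,
    one_pow, one_mul]
  rw [Fin.val_add]

theorem values_rot {c d : ℕ} (hc : 0 < c) [NeZero c] {ℓ : Mu c → Mu (c * d)} {v : Fin c → ℂ}
    (h : Values ℓ v) (a : Fin c) {ω : Mu c} (hω : toC ω = e a c) :
    Values (fun z => (ℓ ω)⁻¹ * ℓ (ω * z)) (fun k => (v a)⁻¹ * v (a + k)) := by
  intro k z hz
  simp only
  rw [toC_mul, toC_inv, h a ω hω, h (a + k) (ω * z) (by rw [toC_mul, hω, hz, e_add hc])]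

theorem values_rot_inv {c d : ℕ} (hc : 0 < c) [NeZero c] {ℓ : Mu c → Mu (c * d)} {v : Fin c → ℂ}
    (h : Values ℓ v) (a : Fin c) {ω : Mu c} (hω : toC ω = e a c) :
    Values (fun z => ℓ ω * (ℓ (ω * z))⁻¹) (fun k => v a * (v (a + k))⁻¹) := by
  intro k z hz
  simp only
  rw [toC_mul, toC_inv, h a ω hω, h (a + k) (ω * z) (by rw [toC_mul, hω, hz, e_add hc])]

theorem values_ne {c d : ℕ} (hc : 0 < c) {ℓ : Mu c → Mu (c * d)} {v : Fin c → ℂ}
    (h : Values ℓ v) (k : Fin c) : v k ≠ 0 := by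
  obtain ⟨z, hz⟩ := exists_mu hc k
  rw [← h k z hz]
  exact toC_ne _

theorem values_pow {c d : ℕ} (hc : 0 < c) {ℓ : Mu c → Mu (c * d)} {v : Fin c → ℂ}
    (h : Values ℓ v) (k : Fin c) : v k ^ (c * d) = 1 := by
  obtain ⟨z, hz⟩ := exists_mu hc k
  rw [← h k z hz]
  exact toC_pow _

theorem values_self {c d : ℕ} (hc : 0 < c) (ℓ : Mu c → Mu (c * d)) :
    ∃ v : Fin c → ℂ, Values ℓ v := by
  choose z hz using fun k : Fin c => exists_mu hc (k : ℕ)
  refine ⟨fun k => toC (ℓ (z k)), ?_⟩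
  intro k y hy
  have : y = z k := toC_inj (by rw [hy, hz])
  rw [this]

/-- the effect of an equivalence on the values -/
theorem values_equiv {c d : ℕ} (hc : 0 < c) [NeZero c] {ℓ ℓ' : Mu c → Mu (c * d)}
    {v v' : Fin c → ℂ} (h : Values ℓ v) (h' : Values ℓ' v') (h1 : v' 0 = 1)
    (he : Equivalent ℓ ℓ') : ∃ a : Fin c, (∀ k, v' k = (v a)⁻¹ * v (a + k)) ∨
      (∀ k, v' k = v a * (v (a + k))⁻¹) := by
  obtain ⟨η, ω, hη⟩ := he.explicit
  obtain ⟨a, ha⟩ := exists_fin hc ω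
  choose z hz using fun k : Fin c => exists_mu hc (k : ℕ)
  have hω : ∀ k, toC (ω * z k) = e ((a + k : Fin c) : ℕ) c := fun k => by
    rw [toC_mul, ha, hz, e_add hc]
  have hne := values_ne hc h
  refine ⟨a, ?_⟩
  rcases hη with hη | hη
  · left
    have key : ∀ k, v' k = toC η * v (a + k) := by
      intro k
      rw [← h' k (z k) (hz k), hη, toC_mul, h (a + k) _ (hω k)]
    have k0 := key 0
    rw [h1, add_zero] at k0
    have hη1 : toC η = (v a)⁻¹ := eq_inv_of_mul_eq_one_left k0.symm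
    intro k
    rw [key k, hη1]
  · right
    have key : ∀ k, v' k = toC η * (v (a + k))⁻¹ := by
      intro k
      rw [← h' k (z k) (hz k), hη, toC_mul, toC_inv, h (a + k) _ (hω k)]
    have k0 := key 0
    rw [h1, add_zero] at k0
    have hη1 : toC η = v a := by
      have := hne a
      field_simp at k0
      exact k0.symm
    intro k
    rw [key k, hη1]

theorem exists_ext {c d : ℕ} (ℓ : Mu c → Mu (c * d)) :
    ∃ w : ℂ → ℂ, ∀ z : Mu c, w (toC z) = toC (ℓ z) := by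
  refine ⟨Function.extend toC (fun z => toC (ℓ z)) 0, ?_⟩
  intro z
  exact Function.Injective.extend_apply (fun a b h => toC_inj h) _ _ z

/-! ## The case `c = 5` -/

theorem e30_prim : IsPrimitiveRoot (e 1 30) 30 := e_prim (by norm_num)

theorem e5 (k : ℕ) : e k 5 = (e 1 30 ^ 6) ^ k := by
  rw [← pow_mul]
  exact e_pow' k 6 5 (by norm_num) (by norm_num)

theorem reps_row (g : List ℕ) (hg : g ∈ reps) :
    ∃ j : Fin 5, ∀ k : Fin 5, expo j k = g.getD k 0 := by
  simp only [reps, List.mem_cons, List.not_mem_nil, or_false] at hg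
  rcases hg with rfl | rfl | rfl | rfl | rfl
  · exact ⟨0, by decide⟩
  · exact ⟨1, by decide⟩
  · exact ⟨2, by decide⟩
  · exact ⟨3, by decide⟩
  · exact ⟨4, by decide⟩

theorem penta_eq (j k : Fin 5) : penta j k = e 1 30 ^ expo j k := e_pow _ _

theorem row_reps (j : Fin 5) : ∃ g ∈ reps, ∀ k : Fin 5, expo j k = g.getD k 0 := by
  revert j
  decide

theorem five_forward {d : ℕ} (hd : 0 < d) {ℓ : Mu 5 → Mu (5 * d)} (h : IsExotic ℓ) :
    ∃ j : Fin 5, ∃ ℓ' : Mu 5 → Mu (5 * d), Equivalent ℓ ℓ' ∧ Values ℓ' (penta j) := by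
  obtain ⟨w, α, β, γ, δ, hℓ, hw1, hr, hdet, hrel, hpow⟩ := exo_data (by norm_num) hd h
  have h30 := thirty hw1 hr hdet hrel d hd hpow
  obtain ⟨g, hg, i, hi, hgi⟩ := five e30_prim hw1 hr hdet hrel h30
  obtain ⟨j, hj⟩ := reps_row g hg
  obtain ⟨ω, hω⟩ := exists_mu (c := 5) (by norm_num) i
  rw [e5] at hω
  have hL := toC_ne (ℓ 1)
  have hwi : w ((e 1 30 ^ 6) ^ i) ≠ 0 := by
    have h1 := hℓ ω
    rw [hω] at h1
    intro h0
    rw [h0, mul_zero] at h1
    exact toC_ne _ h1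
  refine ⟨j, ?_⟩
  rcases hgi with hgi | hgi
  · refine ⟨fun z => (ℓ ω)⁻¹ * ℓ (ω * z), equivalent_of ℓ _ _, ?_⟩
    intro k z hz
    simp only
    rw [toC_mul, toC_inv, hℓ ω, hℓ (ω * z), toC_mul, hω, hz, e5, ← pow_add, add_comm i,
      hgi k k.2, penta_eq, hj]
    field_simp
  · refine ⟨fun z => (ℓ ω) * (ℓ (ω * z))⁻¹, equivalent_of_inv ℓ _ _, ?_⟩
    intro k z hz
    simp only
    have h2 : w ((e 1 30 ^ 6) ^ (↑k + i)) ≠ 0 := by
      intro h0
      have := hgi k k.2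
      rw [h0, zero_mul] at this
      exact hwi this.symm
    rw [toC_mul, toC_inv, hℓ ω, hℓ (ω * z), toC_mul, hω, hz, e5, ← pow_add, add_comm i,
      ← hgi k k.2, penta_eq, hj]
    field_simp

theorem five_backward {d : ℕ} (hd : 0 < d) {ℓ : Mu 5 → Mu (5 * d)} {j : Fin 5}
    (h : Values ℓ (penta j)) : IsExotic ℓ := by
  obtain ⟨w, hw⟩ := exists_ext ℓ
  obtain ⟨g, hg, hgj⟩ := row_reps j
  obtain ⟨α, β, γ, δ, hdet, hT⟩ := table_moebius e30_prim g hg
  obtain ⟨ω, hω⟩ := exists_mu (c := 5) (by norm_num) 1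
  have hw1 : w 1 = 1 := by
    have h1 := hw 1
    rw [toC_one, h 0 1 (by rw [toC_one, e_pow]; simp), penta_eq] at h1
    have : ∀ j, expo j 0 = 0 := by decide
    rw [h1, this, pow_zero]
  have hwω : w (toC ω) = e 1 30 ^ expo j 1 := by
    rw [hw, h 1 ω hω, penta_eq]
  have hω5 : toC ω = e 1 30 ^ 6 := by rw [hω, e5, pow_one]
  refine exotic_of (by norm_num) hd hw ⟨?_, ?_⟩ hdet ?_
  · intro hrot
    have h1 := hrot (toC ω) (toC_pow ω)
    rw [hwω, hw1, one_mul, hω5] at h1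
    have h2 : ∀ j, expo j 1 < 30 := by decide
    have h3 : ∀ j, expo j 1 ≠ 6 := by decide
    exact h3 j (e30_prim.pow_inj (h2 j) (by norm_num) h1)
  · intro hrot
    have h1 := hrot (toC ω) (toC_pow ω)
    rw [hwω, hw1, hω5, ← pow_add] at h1
    have h2 : ∀ j, ¬ 30 ∣ expo j 1 + 6 := by decide
    exact h2 j ((e30_prim.pow_eq_one_iff_dvd _).1 h1)
  · intro z
    obtain ⟨k, hk⟩ := exists_fin (by norm_num) z
    rw [h k z hk, hk, e5, penta_eq, hgj]
    exact hT k k.2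

theorem five_exists {d : ℕ} (hd : 0 < d) (j : Fin 5) :
    (∃ ℓ : Mu 5 → Mu (5 * d), Values ℓ (penta j)) ↔
      (if j = 0 then 2 else 6) ∣ d := by
  constructor
  · rintro ⟨ℓ, h⟩
    have key : ∀ k, 30 ∣ expo j k * (5 * d) := by
      intro k
      have h1 := values_pow (by norm_num) h k
      rw [penta_eq, ← pow_mul] at h1
      exact (e30_prim.pow_eq_one_iff_dvd _).1 h1
    have k1 := key 1
    have k2 := key 2
    fin_cases j
    · simp [expo] at k1 k2 ⊢
      omega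
    · simp [expo] at k1 k2 ⊢
      omega
    · simp [expo] at k1 k2 ⊢
      have k3 := key 3
      simp [expo] at k3
      omega
    · simp [expo] at k1 k2 ⊢
      omega
    · simp [expo] at k1 k2 ⊢
      omega
  · intro hj
    apply exists_values (by norm_num) hd
    intro k
    rw [penta_eq, ← pow_mul]
    apply (e30_prim.pow_eq_one_iff_dvd _).2
    fin_cases j
    · have h1 : ∀ k, ∃ q, expo 0 k = 3 * q := by
        intro k
        exact ⟨![0, 1, 2, 4, 8] k, by fin_cases k <;> rfl⟩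
      obtain ⟨q, hq⟩ := h1 k
      obtain ⟨t, rfl⟩ : 2 ∣ d := by simpa using hj
      show 30 ∣ expo 0 k * (5 * (2 * t))
      rw [hq]
      exact ⟨q * t, by ring⟩
    all_goals
      obtain ⟨t, rfl⟩ : 6 ∣ d := by simpa using hj
      exact ⟨_, by rw [show ∀ x, x * (5 * (6 * t)) = 30 * (x * t) from fun x => by ring]⟩

theorem uniq_aux1 : ∀ i j a : Fin 5, (∀ k, (expo j k + expo i a) % 30 = expo i (a + k) % 30) →
    i = j := by
  decide

theorem uniq_aux2 : ∀ i j a : Fin 5, (∀ k, (expo j k + expo i (a + k)) % 30 = expo i a % 30) →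
    i = j := by
  decide

theorem five_unique {d : ℕ} {i j : Fin 5} {ℓ ℓ' : Mu 5 → Mu (5 * d)}
    (h : Values ℓ (penta i)) (h' : Values ℓ' (penta j))
    (he : Equivalent ℓ ℓ') : i = j := by
  have h1 : penta j 0 = 1 := by
    have : ∀ j, expo j 0 = 0 := by decide
    rw [penta_eq, this, pow_zero]
  have hz : e 1 30 ≠ 0 := e30_prim.ne_zero (by norm_num)
  have hmod : ∀ u v : ℕ, e 1 30 ^ u = e 1 30 ^ v → u % 30 = v % 30 := by
    intro u v huv
    have h2 := e30_prim.pow_inj (Nat.mod_lt u (by norm_num)) (Nat.mod_lt v (by norm_num))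
    apply h2
    rw [← Nat.div_add_mod u 30, ← Nat.div_add_mod v 30, pow_add, pow_add, pow_mul, pow_mul,
      e30_prim.pow_eq_one, one_pow, one_pow] at huv
    simpa using huv
  obtain ⟨a, ha | ha⟩ := values_equiv (by norm_num) h h' h1 he
  · have key : ∀ k, (expo j k + expo i a) % 30 = expo i (a + k) % 30 := by
      intro k
      apply hmod
      have h2 := ha k
      rw [penta_eq, penta_eq, penta_eq] at h2
      rw [pow_add, h2]
      field_simp
    exact uniq_aux1 i j a key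
  · have key : ∀ k, (expo j k + expo i (a + k)) % 30 = expo i a % 30 := by
      intro k
      apply hmod
      have h2 := ha k
      rw [penta_eq, penta_eq, penta_eq] at h2
      rw [pow_add, h2]
      field_simp
    exact uniq_aux2 i j a key

/-! ## The case `c = 4` -/

theorem iota_sq : e 1 4 ^ 2 = -1 := by
  have h := e_prim (n := 4) (by norm_num)
  have h1 : (e 1 4 ^ 2 - 1) * (e 1 4 ^ 2 + 1) = 0 := by linear_combination h.pow_eq_one
  have h2 : e 1 4 ^ 2 - 1 ≠ 0 :=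
    sub_ne_zero.2 (h.pow_ne_one_of_pos_of_lt (by norm_num) (by norm_num))
  linear_combination (mul_eq_zero.1 h1).resolve_left h2

theorem iota_ne_one : e 1 4 ≠ 1 := (e_prim (n := 4) (by norm_num)).ne_one (by norm_num)

theorem iota_ne_zero : e 1 4 ≠ 0 := (e_prim (n := 4) (by norm_num)).ne_zero (by norm_num)

theorem iota_ne_neg_one : e 1 4 ≠ -1 := by
  intro h
  have := iota_sq
  rw [h] at this
  norm_num at this

theorem e12_prim : IsPrimitiveRoot (e 1 12) 12 := e_prim (by norm_num)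

theorem iota12 : e 1 4 = e 1 12 ^ 3 := by
  have := e_pow' 1 3 4 (by norm_num) (by norm_num)
  simpa using this

theorem phi12 : e 1 12 ^ 4 - e 1 12 ^ 2 + 1 = 0 := by
  have h := e12_prim
  have h6 : e 1 12 ^ 6 + 1 = 0 := by
    have h1 : (e 1 12 ^ 6 - 1) * (e 1 12 ^ 6 + 1) = 0 := by linear_combination h.pow_eq_one
    exact (mul_eq_zero.1 h1).resolve_left
      (sub_ne_zero.2 (h.pow_ne_one_of_pos_of_lt (by norm_num) (by norm_num)))
  have h1 : (e 1 12 ^ 2 + 1) * (e 1 12 ^ 4 - e 1 12 ^ 2 + 1) = 0 := by linear_combination h6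
  refine (mul_eq_zero.1 h1).resolve_left ?_
  intro h2
  exact h.pow_ne_one_of_pos_of_lt (show 4 ≠ 0 by norm_num) (by norm_num)
    (by linear_combination (e 1 12 ^ 2 - 1) * h2)

theorem sporadic_eq (k : Fin 4) : sporadic k = e 1 12 ^ (![0, 1, 3, 10] k) := e_pow _ _

/-- the shape of exotic embeddings in terms of values -/
theorem four_values {d : ℕ} (hd : 0 < d) {ℓ : Mu 4 → Mu (4 * d)} (h : IsExotic ℓ)
    {v : Fin 4 → ℂ} (hv : Values ℓ v) :
    (v 2 = -v 0 ∧ v 1 * v 3 = v 0 ^ 2) ∨ (v 3 = -v 1 ∧ v 0 * v 2 = v 1 ^ 2) ∨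
      ∃ j u : ℂ, j ^ 2 = -1 ∧ u ^ 2 - u + 1 = 0 ∧
        ((v 1 = j * u * v 0 ∧ v 2 = j * v 0 ∧ v 3 = u * v 0) ∨
          (v 1 = u * v 0 ∧ v 2 = j * v 0 ∧ v 3 = j * u * v 0)) := by
  have hpow := values_pow (by norm_num) hv
  obtain ⟨hi, α, β, γ, δ, hdet, hT, -, -⟩ := h
  choose z hz using fun k : Fin 4 => exists_mu (c := 4) (by norm_num) (k : ℕ)
  have hrel : ∀ k : Fin 4, Rl α β γ δ (e 1 4 ^ (k : ℕ)) (v k) := by
    intro k
    have h1 := hT (z k)
    unfold Rl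
    rw [← hv k (z k) (hz k), h1.2, hz k, e_pow] at *
    rw [div_mul_cancel₀ _ h1.1]
  have hne : ∀ k l : Fin 4, k ≠ l → v k ≠ v l := by
    intro k l hkl he
    apply hkl
    rw [← hv k (z k) (hz k), ← hv l (z l) (hz l)] at he
    have h1 := hi (toC_inj he)
    apply e_inj (c := 4) (by norm_num)
    rw [← hz k, ← hz l, h1]
  have hcr := cross hdet (hrel 0) (hrel 1) (hrel 2) (hrel 3)
  apply four (N := 4 * d) (by omega) (hpow 0) (hpow 1) (hpow 2) (hpow 3)
    (hne 0 2 (by decide)) (hne 1 3 (by decide))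
  simp only [Fin.val_zero, Fin.val_one, Fin.val_two, pow_zero, pow_one,
    show ((3 : Fin 4) : ℕ) = 3 from rfl] at hcr
  have hi2 := iota_sq
  have hi0 := iota_ne_zero
  set ι := e 1 4
  have h3 : ι ^ 3 = -ι := by linear_combination ι * hi2
  rw [h3, hi2] at hcr
  apply mul_left_cancel₀ (mul_ne_zero (two_ne_zero (α := ℂ)) hi0)
  have e1 : (1 - -ι) * (ι - -1) = 2 * ι := by linear_combination hi2
  have e2 : (1 - -1) * (ι - -ι) = 4 * ι := by ring
  rw [e1, e2] at hcr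
  linear_combination -hcr

theorem kite_pow {d : ℕ} {ℓ : Mu 4 → Mu (4 * d)} {ξ : ℂ} (h : Values ℓ (kite ξ)) :
    ξ ^ (4 * d) = 1 := by
  have := values_pow (by norm_num) h 1
  simpa [kite] using this

theorem kite_exotic_ne {d : ℕ} (hd : 0 < d) {ℓ : Mu 4 → Mu (4 * d)} {ξ : ℂ}
    (h : Values ℓ (kite ξ)) (he : IsExotic ℓ) : ξ ^ 4 ≠ 1 := by
  intro h4
  have h1 : (ξ ^ 2 - 1) * (ξ ^ 2 + 1) = 0 := by linear_combination h4
  choose z hz using fun k : Fin 4 => exists_mu (c := 4) (by norm_num) (k : ℕ)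
  rcases mul_eq_zero.1 h1 with h2 | h2
  · have h3 : z 0 = z 2 := by
      apply he.1
      apply toC_inj
      rw [h 0 (z 0) (hz 0), h 2 (z 2) (hz 2)]
      simp only [kite, Matrix.cons_val_zero, Matrix.cons_val]
      linear_combination -h2
    have h4 : (0 : Fin 4) = 2 := e_inj (c := 4) (by norm_num) (by rw [← hz 0, ← hz 2, h3])
    exact absurd h4 (by decide)
  · obtain ⟨w, α, β, γ, δ, hℓ, hw1, hr, -, -, -⟩ := exo_data (by norm_num) hd he
    have hi2 := iota_sq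
    have hL : toC (ℓ 1) = 1 := by
      rw [h 0 1 (by rw [toC_one, e_pow]; simp)]
      rfl
    have hwk : ∀ k : Fin 4, w (e 1 4 ^ (k : ℕ)) = kite ξ k := by
      intro k
      have h3 := hℓ (z k)
      rw [hL, one_mul, hz k, h k (z k) (hz k), e_pow] at h3
      exact h3.symm
    have w0 : w 1 = 1 := hw1
    have w1 : w (e 1 4) = ξ := by simpa [kite] using hwk 1
    have w2 : w (-1) = ξ ^ 2 := by
      have := hwk 2
      rw [show ((2 : Fin 4) : ℕ) = 2 from rfl, iota_sq] at this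
      simpa [kite] using this
    have w3 : w (-e 1 4) = -ξ := by
      have := hwk 3
      rw [show ((3 : Fin 4) : ℕ) = 3 from rfl,
        show e 1 4 ^ 3 = -e 1 4 by linear_combination e 1 4 * iota_sq] at this
      simpa [kite] using this
    have hcases : ∀ y : ℂ, y ^ 4 = 1 → y = 1 ∨ y = e 1 4 ∨ y = -1 ∨ y = -e 1 4 := by
      intro y hy
      have h5 : (y - 1) * ((y - e 1 4) * ((y + 1) * (y + e 1 4))) = 0 := by
        linear_combination hy - (y ^ 2 - 1) * hi2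
      rcases mul_eq_zero.1 h5 with h5 | h5
      · exact Or.inl (sub_eq_zero.1 h5)
      rcases mul_eq_zero.1 h5 with h5 | h5
      · exact Or.inr (Or.inl (sub_eq_zero.1 h5))
      rcases mul_eq_zero.1 h5 with h5 | h5
      · exact Or.inr (Or.inr (Or.inl (eq_neg_of_add_eq_zero_left h5)))
      · exact Or.inr (Or.inr (Or.inr (eq_neg_of_add_eq_zero_left h5)))
    have h5 : (ξ - e 1 4) * (ξ + e 1 4) = 0 := by linear_combination h2 - hi2
    rcases mul_eq_zero.1 h5 with h6 | h6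
    · have h7 : ξ = e 1 4 := sub_eq_zero.1 h6
      apply hr.1
      intro y hy
      rcases hcases y hy with rfl | rfl | rfl | rfl
      · rw [w0, one_mul]
      · rw [w1, w0, h7, one_mul]
      · rw [w2, w0, h7, hi2, one_mul]
      · rw [w3, w0, h7, one_mul]
    · have h7 : ξ = -e 1 4 := eq_neg_of_add_eq_zero_left h6
      apply hr.2
      intro y hy
      rcases hcases y hy with rfl | rfl | rfl | rfl
      · rw [w0, one_mul]
      · rw [w1, w0, h7]
        linear_combination -hi2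
      · rw [w2, w0, h7]
        linear_combination -hi2
      · rw [w3, w0, h7]
        linear_combination -hi2

theorem kite_exotic {d : ℕ} (hd : 0 < d) {ℓ : Mu 4 → Mu (4 * d)} {ξ : ℂ}
    (h : Values ℓ (kite ξ)) (h4 : ξ ^ 4 ≠ 1) : IsExotic ℓ := by
  obtain ⟨w, hw⟩ := exists_ext ℓ
  have hi2 := iota_sq
  choose z hz using fun k : Fin 4 => exists_mu (c := 4) (by norm_num) (k : ℕ)
  have hwk : ∀ k : Fin 4, w (e 1 4 ^ (k : ℕ)) = kite ξ k := by
    intro k
    have h3 := hw (z k)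
    rw [h k (z k) (hz k), hz k, e_pow] at h3
    exact h3
  have w0 : w 1 = 1 := by simpa [kite] using hwk 0
  have w1 : w (e 1 4) = ξ := by simpa [kite] using hwk 1
  have hξ1 : ξ ≠ 1 := by rintro rfl; simp at h4
  have hξ2 : ξ ^ 2 ≠ 1 := by
    intro h2
    exact h4 (by linear_combination (ξ ^ 2 + 1) * h2)
  have hξ0 : ξ ≠ 0 := by
    have := values_ne (by norm_num) h 1
    simpa [kite] using this
  have hξ3 : ξ ≠ ξ ^ 2 := by
    intro h2
    apply hξ1
    apply mul_left_cancel₀ hξ0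
    linear_combination -h2
  obtain ⟨α, β, γ, δ, hdet, hT⟩ := rebuild (z1 := 1) (z2 := e 1 4) (z3 := -1) (w1 := 1) (w2 := ξ)
    (w3 := ξ ^ 2) iota_ne_one.symm (by norm_num) iota_ne_neg_one hξ1.symm hξ2.symm hξ3
  refine exotic_of (by norm_num) hd hw ⟨?_, ?_⟩ hdet ?_
  · intro hrot
    have h1 := hrot (e 1 4) (e_prim (by norm_num)).pow_eq_one
    rw [w1, w0, one_mul] at h1
    exact h4 (by rw [h1]; exact (e_prim (by norm_num)).pow_eq_one)
  · intro hrot
    have h1 := hrot (e 1 4) (e_prim (by norm_num)).pow_eq_one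
    rw [w1, w0] at h1
    apply h4
    have h2 : ξ ^ 4 * e 1 4 ^ 4 = 1 := by rw [← mul_pow, h1, one_pow]
    rwa [(e_prim (by norm_num)).pow_eq_one, mul_one] at h2
  · intro y
    obtain ⟨k, hk⟩ := exists_fin (by norm_num) y
    rw [h k y hk, hk, e_pow]
    apply hT
    fin_cases k
    · simp [kite]
    · simp [kite]
      ring
    · simp [kite, hi2]
    · show (-ξ - 1) * (ξ - ξ ^ 2) * ((e 1 4 ^ 3 - -1) * (e 1 4 - 1)) =
        (-ξ - ξ ^ 2) * (ξ - 1) * ((e 1 4 ^ 3 - 1) * (e 1 4 - -1))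
      linear_combination (-2 * ξ * (1 - ξ ^ 2) * (e 1 4 ^ 2 - 1)) * hi2

theorem sporadic_exotic {d : ℕ} (hd : 0 < d) {ℓ : Mu 4 → Mu (4 * d)}
    (h : Values ℓ sporadic) : IsExotic ℓ := by
  obtain ⟨w, hw⟩ := exists_ext ℓ
  choose z hz using fun k : Fin 4 => exists_mu (c := 4) (by norm_num) (k : ℕ)
  have hwk : ∀ k : Fin 4, w (e 1 4 ^ (k : ℕ)) = e 1 12 ^ (![0, 1, 3, 10] k) := by
    intro k
    have h3 := hw (z k)
    rw [h k (z k) (hz k), hz k, e_pow, sporadic_eq] at h3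
    exact h3
  have w0 : w 1 = 1 := by simpa using hwk 0
  have w1 : w (e 1 4) = e 1 12 := by simpa using hwk 1
  have hpi := e12_prim
  have hne : ∀ k l : ℕ, k < 12 → l < 12 → k ≠ l → e 1 12 ^ k ≠ e 1 12 ^ l := by
    intro k l hk hl hkl he
    exact hkl (hpi.pow_inj hk hl he)
  have n01 : (1 : ℂ) ≠ e 1 12 := by
    have := hne 0 1 (by norm_num) (by norm_num) (by norm_num)
    rwa [pow_zero, pow_one] at this
  have n03 : (1 : ℂ) ≠ e 1 12 ^ 3 := by
    have := hne 0 3 (by norm_num) (by norm_num) (by norm_num)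
    rwa [pow_zero] at this
  have n13 : e 1 12 ≠ e 1 12 ^ 3 := by
    have := hne 1 3 (by norm_num) (by norm_num) (by norm_num)
    rwa [pow_one] at this
  have n06 : (1 : ℂ) ≠ e 1 12 ^ 6 := by
    have := hne 0 6 (by norm_num) (by norm_num) (by norm_num)
    rwa [pow_zero] at this
  have n36 : e 1 12 ^ 3 ≠ e 1 12 ^ 6 := hne 3 6 (by norm_num) (by norm_num) (by norm_num)
  obtain ⟨α, β, γ, δ, hdet, hT⟩ := rebuild n03 n06 n36 n01 n03 n13
  refine exotic_of (by norm_num) hd hw ⟨?_, ?_⟩ hdet ?_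
  · intro hrot
    have h1 := hrot (e 1 4) (e_prim (by norm_num)).pow_eq_one
    rw [w1, w0, one_mul, iota12] at h1
    exact n13 h1
  · intro hrot
    have h1 := hrot (e 1 4) (e_prim (by norm_num)).pow_eq_one
    rw [w1, w0, iota12] at h1
    exact hne 4 0 (by norm_num) (by norm_num) (by norm_num) (by rw [pow_zero, ← h1]; ring)
  · intro y
    obtain ⟨k, hk⟩ := exists_fin (by norm_num) y
    rw [h k y hk, hk, e_pow, iota12, sporadic_eq]
    apply hT
    set η := e 1 12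
    fin_cases k
    · simp
    · simp
      ring
    · show (η ^ 3 - 1) * (η - η ^ 3) * (((η ^ 3) ^ 2 - η ^ 6) * (η ^ 3 - 1)) =
        (η ^ 3 - η ^ 3) * (η - 1) * (((η ^ 3) ^ 2 - 1) * (η ^ 3 - η ^ 6))
      ring
    · show (η ^ 10 - 1) * (η - η ^ 3) * (((η ^ 3) ^ 3 - η ^ 6) * (η ^ 3 - 1)) =
        (η ^ 10 - η ^ 3) * (η - 1) * (((η ^ 3) ^ 3 - 1) * (η ^ 3 - η ^ 6))
      linear_combination (η ^ 6 - 2 * η ^ 7 + η ^ 8 - 2 * η ^ 9 + 3 * η ^ 10 - 2 * η ^ 14 +
        3 * η ^ 18 - 2 * η ^ 19 + η ^ 20 - 2 * η ^ 21 + η ^ 22) * phi12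

/-- transport of an exponent table -/
theorem to_table {c d n : ℕ} (hc : 0 < c) [NeZero c] (hn : 0 < n) {ℓ : Mu c → Mu (c * d)}
    {v : Fin c → ℂ} (hv : Values ℓ v) {f g : Fin c → ℕ} {a : ℂ} (ha : a ≠ 0)
    (hf : ∀ k, v k = a * e 1 n ^ f k) {r : Fin c}
    (h : (∀ k, f (r + k) % n = (f r + g k) % n) ∨ (∀ k, (f (r + k) + g k) % n = f r % n)) :
    ∃ ℓ' : Mu c → Mu (c * d), Equivalent ℓ ℓ' ∧ Values ℓ' (fun k => e (g k) n) := by
  have hz : e 1 n ≠ 0 := (e_prim hn).ne_zero hn.ne'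
  have hmod : ∀ u v : ℕ, u % n = v % n → e 1 n ^ u = e 1 n ^ v := by
    intro u v huv
    rw [← Nat.div_add_mod u n, ← Nat.div_add_mod v n, huv, pow_add, pow_add, pow_mul, pow_mul,
      (e_prim hn).pow_eq_one, one_pow, one_pow]
  obtain ⟨ω, hω⟩ := exists_mu hc (r : ℕ)
  rcases h with h | h
  · refine ⟨_, equivalent_of ℓ (ℓ ω)⁻¹ ω, ?_⟩
    intro k z hz'
    rw [values_rot hc hv r hω k z hz']
    simp only
    rw [hf, hf, hmod _ _ (h k), pow_add, e_pow (g k)]
    field_simp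
  · refine ⟨_, equivalent_of_inv ℓ (ℓ ω) ω, ?_⟩
    intro k z hz'
    rw [values_rot_inv hc hv r hω k z hz']
    simp only
    rw [hf, hf, ← hmod _ _ (h k), pow_add, e_pow (g k)]
    field_simp

/-- the eight exponent vectors of the sporadic class -/
theorem eight : ∀ j ∈ [3, 9], ∀ u ∈ [2, 10], ∀ f ∈ [![0, j + u, j, u], ![0, u, j, j + u]],
    ∃ r : Fin 4, (∀ k, f (r + k) % 12 = (f r + ![0, 1, 3, 10] k) % 12) ∨
      (∀ k, (f (r + k) + ![0, 1, 3, 10] k) % 12 = f r % 12) := by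
  decide

theorem four_forward {d : ℕ} (hd : 0 < d) {ℓ : Mu 4 → Mu (4 * d)} (h : IsExotic ℓ) :
    (∃ ξ : ℂ, ξ ^ (4 * d) = 1 ∧ ξ ^ 4 ≠ 1 ∧
      ∃ ℓ' : Mu 4 → Mu (4 * d), Equivalent ℓ ℓ' ∧ Values ℓ' (kite ξ)) ∨
    ∃ ℓ' : Mu 4 → Mu (4 * d), Equivalent ℓ ℓ' ∧ Values ℓ' sporadic := by
  obtain ⟨v, hv⟩ := values_self (c := 4) (by norm_num) ℓ
  have hne := values_ne (by norm_num) hv
  have fin : ∀ ξ : ℂ, (∃ ℓ' : Mu 4 → Mu (4 * d), Equivalent ℓ ℓ' ∧ Values ℓ' (kite ξ)) →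
      (∃ ξ : ℂ, ξ ^ (4 * d) = 1 ∧ ξ ^ 4 ≠ 1 ∧
        ∃ ℓ' : Mu 4 → Mu (4 * d), Equivalent ℓ ℓ' ∧ Values ℓ' (kite ξ)) := by
    rintro ξ ⟨ℓ', h1, h2⟩
    exact ⟨ξ, kite_pow h2, kite_exotic_ne hd h2 (h1.exotic h), ℓ', h1, h2⟩
  rcases four_values hd h hv with ⟨h1, h2⟩ | ⟨h1, h2⟩ | ⟨j, u, hj, hu, hju⟩
  · left
    apply fin (-v 0 / v 1)
    obtain ⟨ω, hω⟩ := exists_mu (c := 4) (by norm_num) 1
    refine ⟨_, equivalent_of ℓ (ℓ ω)⁻¹ ω, ?_⟩
    intro k z hz
    rw [values_rot (by norm_num) hv 1 hω k z hz]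
    have n0 := hne 0
    have n1 := hne 1
    fin_cases k
    · show (v 1)⁻¹ * v 1 = 1
      exact inv_mul_cancel₀ n1
    · show (v 1)⁻¹ * v 2 = -v 0 / v 1
      rw [h1]
      field_simp
    · show (v 1)⁻¹ * v 3 = (-v 0 / v 1) ^ 2
      field_simp
      linear_combination h2
    · show (v 1)⁻¹ * v 0 = -(-v 0 / v 1)
      field_simp
  · left
    apply fin (v 1 / v 0)
    obtain ⟨ω, hω⟩ := exists_mu (c := 4) (by norm_num) 0
    refine ⟨_, equivalent_of ℓ (ℓ ω)⁻¹ ω, ?_⟩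
    intro k z hz
    rw [values_rot (by norm_num) hv 0 hω k z hz]
    have n0 := hne 0
    have n1 := hne 1
    fin_cases k
    · show (v 0)⁻¹ * v 0 = 1
      exact inv_mul_cancel₀ n0
    · show (v 0)⁻¹ * v 1 = v 1 / v 0
      field_simp
    · show (v 0)⁻¹ * v 2 = (v 1 / v 0) ^ 2
      field_simp
      linear_combination h2
    · show (v 0)⁻¹ * v 3 = -(v 1 / v 0)
      rw [h1]
      field_simp
  · right
    have hη := phi12
    have hη0 : e 1 12 ≠ 0 := e12_prim.ne_zero (by norm_num)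
    have hj' : ∃ a ∈ [3, 9], j = e 1 12 ^ a := by
      have h1 : (j - e 1 12 ^ 3) * (j - e 1 12 ^ 9) = 0 := by
        have h6 : e 1 12 ^ 6 = -1 := by linear_combination (e 1 12 ^ 2 + 1) * hη
        have h9 : e 1 12 ^ 9 = - e 1 12 ^ 3 := by linear_combination e 1 12 ^ 3 * h6
        rw [h9]
        linear_combination hj - h6
      rcases mul_eq_zero.1 h1 with h2 | h2
      · exact ⟨3, by simp, sub_eq_zero.1 h2⟩
      · exact ⟨9, by simp, sub_eq_zero.1 h2⟩
    have hu' : ∃ b ∈ [2, 10], u = e 1 12 ^ b := by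
      have h1 : (u - e 1 12 ^ 2) * (u - e 1 12 ^ 10) = 0 := by
        have h6 : e 1 12 ^ 6 = -1 := by linear_combination (e 1 12 ^ 2 + 1) * hη
        have h9 : e 1 12 ^ 10 = - e 1 12 ^ 4 := by linear_combination e 1 12 ^ 4 * h6
        rw [h9]
        linear_combination hu + u * hη - h6
      rcases mul_eq_zero.1 h1 with h2 | h2
      · exact ⟨2, by simp, sub_eq_zero.1 h2⟩
      · exact ⟨10, by simp, sub_eq_zero.1 h2⟩
    obtain ⟨a, ha, rfl⟩ := hj'
    obtain ⟨b, hb, rfl⟩ := hu'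
    have h8 := eight a ha b hb
    rcases hju with ⟨k1, k2, k3⟩ | ⟨k1, k2, k3⟩
    · obtain ⟨r, hr⟩ := h8 ![0, a + b, a, b] (by simp)
      refine to_table (by norm_num) (by norm_num) hv (hne 0) ?_ hr
      intro k
      fin_cases k
      · show v 0 = v 0 * e 1 12 ^ 0
        rw [pow_zero, mul_one]
      · show v 1 = v 0 * e 1 12 ^ (a + b)
        rw [k1, pow_add]
        ring
      · show v 2 = v 0 * e 1 12 ^ a
        rw [k2]
        ring
      · show v 3 = v 0 * e 1 12 ^ b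
        rw [k3]
        ring
    · obtain ⟨r, hr⟩ := h8 ![0, b, a, a + b] (by simp)
      refine to_table (by norm_num) (by norm_num) hv (hne 0) ?_ hr
      intro k
      fin_cases k
      · show v 0 = v 0 * e 1 12 ^ 0
        rw [pow_zero, mul_one]
      · show v 1 = v 0 * e 1 12 ^ b
        rw [k1]
        ring
      · show v 2 = v 0 * e 1 12 ^ a
        rw [k2]
        ring
      · show v 3 = v 0 * e 1 12 ^ (a + b)
        rw [k3, pow_add]
        ring

theorem kite_exists {d : ℕ} (hd : 0 < d) {ξ : ℂ} (h : ξ ^ (4 * d) = 1) :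
    ∃ ℓ : Mu 4 → Mu (4 * d), Values ℓ (kite ξ) := by
  apply exists_values (by norm_num) hd
  intro k
  fin_cases k
  · exact one_pow _
  · exact h
  · show (ξ ^ 2) ^ (4 * d) = 1
    rw [← pow_mul, mul_comm, pow_mul, h, one_pow]
  · show (-ξ) ^ (4 * d) = 1
    rw [Even.neg_pow ⟨2 * d, by ring⟩, h]

theorem sporadic_exists {d : ℕ} (hd : 0 < d) :
    (∃ ℓ : Mu 4 → Mu (4 * d), Values ℓ sporadic) ↔ 3 ∣ d := by
  constructor
  · rintro ⟨ℓ, h⟩
    have h1 := values_pow (by norm_num) h 1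
    rw [sporadic_eq, ← pow_mul] at h1
    have h2 := (e12_prim.pow_eq_one_iff_dvd _).1 h1
    simp at h2
    omega
  · rintro ⟨t, rfl⟩
    apply exists_values (by norm_num) hd
    intro k
    rw [sporadic_eq, ← pow_mul]
    apply (e12_prim.pow_eq_one_iff_dvd _).2
    exact ⟨_, by rw [show ∀ x, x * (4 * (3 * t)) = 12 * (x * t) from fun x => by ring]⟩

theorem kite_equiv {d : ℕ} {ℓ ℓ' : Mu 4 → Mu (4 * d)} {ξ ξ' : ℂ}
    (h : Values ℓ (kite ξ)) (h' : Values ℓ' (kite ξ')) :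
    Equivalent ℓ ℓ' ↔ (ξ' = ξ ∨ ξ' = -ξ ∨ ξ' = ξ⁻¹ ∨ ξ' = -ξ⁻¹) := by
  have hξ : ξ ≠ 0 := by simpa [kite] using values_ne (by norm_num) h 1
  obtain ⟨ω, hω⟩ := exists_mu (c := 4) (by norm_num) 2
  constructor
  · intro he
    obtain ⟨a, ha | ha⟩ := values_equiv (by norm_num) h h' rfl he
    · have h1 := ha 1
      fin_cases a
      · left
        have h2 : ξ' = (1 : ℂ)⁻¹ * ξ := h1
        rw [h2]; simp
      · left
        have h2 : ξ' = ξ⁻¹ * ξ ^ 2 := h1
        rw [h2]; field_simp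
      · right; right; right
        have h2 : ξ' = (ξ ^ 2)⁻¹ * (-ξ) := h1
        rw [h2]; field_simp
      · right; right; right
        have h2 : ξ' = (-ξ)⁻¹ * 1 := h1
        rw [h2]; field_simp
    · have h1 := ha 1
      fin_cases a
      · right; right; left
        have h2 : ξ' = (1 : ℂ) * ξ⁻¹ := h1
        rw [h2]; simp
      · right; right; left
        have h2 : ξ' = ξ * (ξ ^ 2)⁻¹ := h1
        rw [h2]; field_simp
      · right; left
        have h2 : ξ' = ξ ^ 2 * (-ξ)⁻¹ := h1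
        rw [h2]; field_simp
      · right; left
        have h2 : ξ' = (-ξ) * (1 : ℂ)⁻¹ := h1
        rw [h2]; simp
  · rintro (rfl | rfl | rfl | rfl)
    · rw [values_unique (by norm_num) h h']
      exact Relation.ReflTransGen.refl
    · have h1 := values_rot_inv (by norm_num) h 2 hω
      have h2 : Values (fun z => ℓ ω * (ℓ (ω * z))⁻¹) (kite (-ξ)) := by
        intro k z hz
        rw [h1 k z hz]
        fin_cases k
        · show ξ ^ 2 * (ξ ^ 2)⁻¹ = 1
          field_simp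
        · show ξ ^ 2 * (-ξ)⁻¹ = -ξ
          field_simp
        · show ξ ^ 2 * (1 : ℂ)⁻¹ = (-ξ) ^ 2
          rw [neg_sq]; simp
        · show ξ ^ 2 * ξ⁻¹ = -(-ξ)
          field_simp
      rw [values_unique (by norm_num) h' h2]
      exact equivalent_of_inv ℓ _ _
    · have h2 : Values (fun z => (ℓ z)⁻¹) (kite ξ⁻¹) := by
        intro k z hz
        simp only
        rw [toC_inv, h k z hz]
        fin_cases k
        · show (1 : ℂ)⁻¹ = 1
          simp
        · rfl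
        · show (ξ ^ 2)⁻¹ = ξ⁻¹ ^ 2
          simp
        · show (-ξ)⁻¹ = -ξ⁻¹
          field_simp
      rw [values_unique (by norm_num) h' h2]
      exact Relation.ReflTransGen.single (Step.invert ℓ)
    · have h1 := values_rot (by norm_num) h 2 hω
      have h2 : Values (fun z => (ℓ ω)⁻¹ * (ℓ (ω * z))) (kite (-ξ⁻¹)) := by
        intro k z hz
        rw [h1 k z hz]
        fin_cases k
        · show (ξ ^ 2)⁻¹ * (ξ ^ 2) = 1
          field_simp
        · show (ξ ^ 2)⁻¹ * (-ξ) = -ξ⁻¹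
          field_simp
        · show (ξ ^ 2)⁻¹ * (1 : ℂ) = (-ξ⁻¹) ^ 2
          rw [neg_sq]; simp
        · show (ξ ^ 2)⁻¹ * ξ = -(-ξ⁻¹)
          field_simp
      rw [values_unique (by norm_num) h' h2]
      exact equivalent_of ℓ _ _

theorem sporadic_kite_aux : ∀ a : Fin 4, (![0, 1, 3, 10] (a + 3) + 0) % 12 ≠
    (![0, 1, 3, 10] (a + 1) + 6) % 12 := by
  decide

theorem sporadic_not_kite {d : ℕ} {ℓ ℓ' : Mu 4 → Mu (4 * d)} {ξ : ℂ}
    (h : Values ℓ sporadic) (h' : Values ℓ' (kite ξ)) : ¬ Equivalent ℓ ℓ' := by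
  intro he
  have hη : e 1 12 ^ 6 = -1 := by linear_combination (e 1 12 ^ 2 + 1) * phi12
  have hη0 : e 1 12 ≠ 0 := e12_prim.ne_zero (by norm_num)
  have hne := values_ne (by norm_num) h
  have key : ∃ a : Fin 4, sporadic (a + 3) = -sporadic (a + 1) := by
    obtain ⟨a, ha | ha⟩ := values_equiv (by norm_num) h h' rfl he
    · refine ⟨a, ?_⟩
      have h1 : ξ = (sporadic a)⁻¹ * sporadic (a + 1) := ha 1
      have h3 : -ξ = (sporadic a)⁻¹ * sporadic (a + 3) := ha 3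
      apply mul_left_cancel₀ (inv_ne_zero (hne a))
      linear_combination -h3 - h1
    · refine ⟨a, ?_⟩
      have h1 : ξ = sporadic a * (sporadic (a + 1))⁻¹ := ha 1
      have h3 : -ξ = sporadic a * (sporadic (a + 3))⁻¹ := ha 3
      have n1 := hne (a + 1)
      have n3 := hne (a + 3)
      have n0 := hne a
      have h4 : sporadic a * (sporadic (a + 3) + sporadic (a + 1)) = 0 := by
        field_simp at h1 h3
        linear_combination (-(sporadic (a + 3))) * h1 - (sporadic (a + 1)) * h3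
      have h5 := (mul_eq_zero.1 h4).resolve_left n0
      linear_combination h5
  obtain ⟨a, ha⟩ := key
  rw [sporadic_eq, sporadic_eq, ← neg_one_mul, ← hη, ← pow_add] at ha
  apply sporadic_kite_aux a
  rw [add_comm _ 6, add_zero]
  apply e12_prim.pow_inj (Nat.mod_lt _ (by norm_num)) (Nat.mod_lt _ (by norm_num))
  have hmod : ∀ u : ℕ, e 1 12 ^ (u % 12) = e 1 12 ^ u := by
    intro u
    conv_rhs => rw [← Nat.div_add_mod u 12, pow_add, pow_mul, e12_prim.pow_eq_one, one_pow,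
      one_mul]
  rw [hmod, hmod, ha]

/-! ## The classification -/

/-- Complete classification of the exotic embeddings `μ_c ↪ μ_{cd}`, `c ≥ 4`, up to equivalence. -/
theorem result :
    -- no exotic embeddings for `c ≥ 6`
    (∀ c d : ℕ, 6 ≤ c → 0 < d → ∀ ℓ : Mu c → Mu (c * d), ¬ IsExotic ℓ) ∧
    -- `c = 5`: five classes; the first occurs exactly when `2 ∣ d`, the others when `6 ∣ d`
    (∀ d : ℕ, 0 < d →
      (∀ ℓ : Mu 5 → Mu (5 * d), IsExotic ℓ ↔
        ∃ j : Fin 5, ∃ ℓ' : Mu 5 → Mu (5 * d), Equivalent ℓ ℓ' ∧ Values ℓ' (penta j)) ∧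
      (∀ j : Fin 5, (∃ ℓ : Mu 5 → Mu (5 * d), Values ℓ (penta j)) ↔
        (if j = 0 then 2 else 6) ∣ d) ∧
      (∀ (i j : Fin 5) (ℓ ℓ' : Mu 5 → Mu (5 * d)), Values ℓ (penta i) → Values ℓ' (penta j) →
        (Equivalent ℓ ℓ' ↔ i = j))) ∧
    -- `c = 4`: the family of kites and, when `3 ∣ d`, one sporadic class
    (∀ d : ℕ, 0 < d →
      (∀ ℓ : Mu 4 → Mu (4 * d), IsExotic ℓ ↔
        ((∃ ξ : ℂ, ξ ^ (4 * d) = 1 ∧ ξ ^ 4 ≠ 1 ∧
          ∃ ℓ' : Mu 4 → Mu (4 * d), Equivalent ℓ ℓ' ∧ Values ℓ' (kite ξ)) ∨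
        ∃ ℓ' : Mu 4 → Mu (4 * d), Equivalent ℓ ℓ' ∧ Values ℓ' sporadic)) ∧
      (∀ ξ : ℂ, ξ ^ (4 * d) = 1 → ∃ ℓ : Mu 4 → Mu (4 * d), Values ℓ (kite ξ)) ∧
      ((∃ ℓ : Mu 4 → Mu (4 * d), Values ℓ sporadic) ↔ 3 ∣ d) ∧
      (∀ (ξ ξ' : ℂ) (ℓ ℓ' : Mu 4 → Mu (4 * d)), Values ℓ (kite ξ) → Values ℓ' (kite ξ') →
        (Equivalent ℓ ℓ' ↔ (ξ' = ξ ∨ ξ' = -ξ ∨ ξ' = ξ⁻¹ ∨ ξ' = -ξ⁻¹))) ∧
      (∀ (ξ : ℂ) (ℓ ℓ' : Mu 4 → Mu (4 * d)), Values ℓ sporadic → Values ℓ' (kite ξ) →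
        ¬ Equivalent ℓ ℓ')) := by
  refine ⟨fun c d hc hd ℓ => none_six hc hd ℓ, fun d hd => ⟨fun ℓ => ⟨five_forward hd, ?_⟩,
    five_exists hd, ?_⟩, fun d hd => ⟨fun ℓ => ⟨four_forward hd, ?_⟩,
    fun ξ h => kite_exists hd h, sporadic_exists hd,
    fun ξ ξ' ℓ ℓ' h h' => kite_equiv h h', fun ξ ℓ ℓ' h h' => sporadic_not_kite h h'⟩⟩
  · rintro ⟨j, ℓ', h1, h2⟩
    exact h1.symm.exotic (five_backward hd h2)
  · intro i j ℓ ℓ' h h'
    constructor
    · exact five_unique h h'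
    · rintro rfl
      rw [values_unique (by norm_num) h h']
      exact Relation.ReflTransGen.refl
  · rintro (⟨ξ, -, h4, ℓ', h1, h2⟩ | ⟨ℓ', h1, h2⟩)
    · exact h1.symm.exotic (kite_exotic hd h2 h4)
    · exact h1.symm.exotic (sporadic_exotic hd h2)

end Pool.Agent.Results.MP_eba27c_nt.Classification
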